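import Pool.Agent.Helper22.T7.Part

set_option autoImplicit false

/-!
MP_2f9829_co: almost all graphs with maximum degree `d` are `d`-edge-choosable. Part 4: the simple
partial pairings of a graph.
-/

open Finset

namespace Pool.Agent.Helper22.T7

open Pool.Agent.Helper15.T4 (IsPM PM cov IsMat)
open Pool.Agent.Helper15.T6
open Pool.Agent.Helper84.T4 (mem_PM mem_cov)

variable {n d : ℕ} {G : SimpleGraph (Fin n)}

/-- Families of injections from the neighbours of a vertex to its half-edges. -/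
abbrev Emb (d : ℕ) (G : SimpleGraph (Fin n)) : Type := (v : Fin n) → {w // G.Adj v w} ↪ Fin d

open Classical in
/-- The partial pairing of a family of injections. -/
noncomputable def PB (β : Emb d G) : Finset (Sym2 (HE n d)) :=
  univ.image (fun x : (v : Fin n) × {w // G.Adj v w} =>
    s((x.1, β x.1 x.2), (x.2.1, β x.2.1 ⟨x.1, x.2.2.symm⟩)))

theorem mem_PB (β : Emb d G) (v w : Fin n) (a b : Fin d) :
    s((v, a), (w, b)) ∈ PB β ↔ ∃ h : G.Adj v w, β v ⟨w, h⟩ = a ∧ β w ⟨v, h.symm⟩ = b := by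
  classical
  unfold PB
  rw [mem_image]
  constructor
  · rintro ⟨⟨x, y, hxy⟩, _, h⟩
    rw [Sym2.eq_iff] at h
    simp only [Prod.mk.injEq] at h
    rcases h with ⟨⟨rfl, h1⟩, ⟨rfl, h2⟩⟩ | ⟨⟨rfl, h1⟩, ⟨rfl, h2⟩⟩
    · exact ⟨hxy, h1, h2⟩
    · exact ⟨hxy.symm, h2, h1⟩
  · rintro ⟨h, rfl, rfl⟩
    exact ⟨⟨v, w, h⟩, mem_univ _, rfl⟩

theorem mem_sym2 {e : Sym2 (HE n d)} (β : Emb d G) (he : e ∈ PB β) (v : Fin n) (a : Fin d)
    (h : (v, a) ∈ e) : ∃ w : {w // G.Adj v w}, β v w = a ∧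
      e = s((v, a), (w.1, β w.1 ⟨v, w.2.symm⟩)) := by
  obtain ⟨⟨w, b⟩, rfl⟩ := h
  rw [mem_PB] at he
  obtain ⟨h1, h2, h3⟩ := he
  exact ⟨⟨w, h1⟩, h2, by rw [h3]⟩

theorem isMat_PB (β : Emb d G) : IsMat (PB β) := by
  refine ⟨?_, fun e he h hh => (mem_cov _ h).2 ⟨e, he, hh⟩, ?_⟩
  · intro e he
    induction e using Sym2.ind with
    | _ x y =>
      obtain ⟨v, a⟩ := x
      obtain ⟨w, b⟩ := y
      rw [mem_PB] at he
      obtain ⟨h, _, _⟩ := he
      rw [Sym2.mk_isDiag_iff]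
      intro h'
      exact h.ne (congrArg Prod.fst h')
  · rintro ⟨v, a⟩ hh
    obtain ⟨e, he, hhe⟩ := (mem_cov _ _).1 hh
    refine ⟨e, ⟨he, hhe⟩, ?_⟩
    rintro e' ⟨he', hhe'⟩
    obtain ⟨w, h1, h2⟩ := mem_sym2 β he v a hhe
    obtain ⟨w', h1', h2'⟩ := mem_sym2 β he' v a hhe'
    have : w = w' := (β v).injective (h1.trans h1'.symm)
    subst this
    rw [h2, h2']

theorem simp_PB (β : Emb d G) : Simp (PB β) := by
  refine ⟨?_, ?_⟩
  · intro v a b h
    rw [mem_PB] at h
    obtain ⟨h, _, _⟩ := h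
    exact h.ne rfl
  · intro v w a a' b b' h1 h2
    rw [mem_PB] at h1 h2
    obtain ⟨_, rfl, _⟩ := h1
    obtain ⟨_, rfl, _⟩ := h2
    rfl

theorem gr_PB (β : Emb d G) : Gr (PB β) = G := by
  ext v w
  change (v ≠ w ∧ ∃ a b, s((v, a), (w, b)) ∈ PB β) ↔ G.Adj v w
  constructor
  · rintro ⟨_, a, b, h⟩
    rw [mem_PB] at h
    exact h.1
  · intro h
    exact ⟨h.ne, _, _, (mem_PB β v w _ _).2 ⟨h, rfl, rfl⟩⟩

/-- the number of covered half-edges at a vertex -/
theorem cov_PB (β : Emb d G) (v : Fin n) [DecidablePred (fun a : Fin d => (v, a) ∈ cov (PB β))] :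
    (univ.filter (fun a : Fin d => (v, a) ∈ cov (PB β))).card = dg G v := by
  classical
  have h1 : univ.filter (fun a : Fin d => (v, a) ∈ cov (PB β)) = univ.image (fun w => β v w) := by
    ext a
    simp only [mem_filter, mem_univ, true_and, mem_image]
    rw [mem_cov]
    constructor
    · rintro ⟨e, he, hh⟩
      obtain ⟨w, h1, _⟩ := mem_sym2 β he v a hh
      exact ⟨w, h1⟩
    · rintro ⟨w, rfl⟩
      exact ⟨_, (mem_PB β v w.1 _ _).2 ⟨w.2, rfl, rfl⟩, Sym2.mem_mk_left _ _⟩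
  rw [h1, Finset.card_image_of_injective _ (β v).injective, Finset.card_univ,
    ← Nat.card_eq_fintype_card]
  rfl

open Classical in
/-- The simple partial pairings of a graph. -/
noncomputable def Fb (d : ℕ) (G : SimpleGraph (Fin n)) : Finset (Finset (Sym2 (HE n d))) :=
  univ.filter (fun P => IsMat P ∧ Simp P ∧ Gr P = G)

theorem mem_Fb {P : Finset (Sym2 (HE n d))} : P ∈ Fb d G ↔ IsMat P ∧ Simp P ∧ Gr P = G := by
  classical
  simp [Fb]

theorem Fb_surj {P : Finset (Sym2 (HE n d))} (hP : P ∈ Fb d G) : ∃ β : Emb d G, PB β = P := by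
  classical
  rw [mem_Fb] at hP
  obtain ⟨hM, hS, hG⟩ := hP
  have hA : ∀ (v : Fin n) (w : {w // G.Adj v w}), ∃ a b, s((v, a), (w.1, b)) ∈ P := by
    intro v w
    have h : (Gr P).Adj v w.1 := by rw [hG]; exact w.2
    exact h.2
  choose A B hAB using hA
  let β : Emb d G := fun v => ⟨A v, by
    intro w w' h
    have h1 := hAB v w
    have h2 := hAB v w'
    rw [h] at h1
    have h3 := IsMat.uniq hM h1 h2
    exact Subtype.ext (congrArg Prod.fst h3)⟩
  have hβ : ∀ v w, β v w = A v w := fun _ _ => rfl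
  refine ⟨β, ?_⟩
  ext e
  induction e using Sym2.ind with
  | _ x y =>
    obtain ⟨v, a⟩ := x
    obtain ⟨w, b⟩ := y
    rw [mem_PB]
    constructor
    · rintro ⟨h, rfl, rfl⟩
      rw [hβ, hβ]
      have h1 := hAB v ⟨w, h⟩
      have h2 := hAB w ⟨v, h.symm⟩
      have h1' : s((w, B v ⟨w, h⟩), (v, A v ⟨w, h⟩)) ∈ P := by
        rw [Sym2.eq_swap]
        exact h1
      have h3 := hS.2 _ _ _ _ _ _ h1' h2
      rw [← h3]
      exact h1
    · intro h
      have hvw : v ≠ w := by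
        rintro rfl
        exact hS.1 _ _ _ h
      have hadj : G.Adj v w := by
        rw [← hG]
        exact ⟨hvw, a, b, h⟩
      refine ⟨hadj, ?_, ?_⟩
      · rw [hβ]
        exact hS.2 _ _ _ _ _ _ (hAB v ⟨w, hadj⟩) h
      · rw [hβ]
        have h' : s((w, b), (v, a)) ∈ P := by rw [Sym2.eq_swap]; exact h
        exact hS.2 _ _ _ _ _ _ (hAB w ⟨v, hadj.symm⟩) h'

theorem PB_inj (β β' : Emb d G) (h : PB β = PB β') : β = β' := by
  funext v
  ext w : 1
  have h1 : s((v, β v w), (w.1, β w.1 ⟨v, w.2.symm⟩)) ∈ PB β :=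
    (mem_PB β v w.1 _ _).2 ⟨w.2, rfl, rfl⟩
  rw [h, mem_PB] at h1
  exact h1.2.1.symm

/-- The number of the simple partial pairings of a graph. -/
theorem card_Fb (hG : ∀ v, dg G v ≤ d) :
    (Fb d G).card * ∏ v, (d - dg G v).factorial = d.factorial ^ n := by
  classical
  have h1 : (Fb d G).card = Fintype.card (Emb d G) := by
    rw [← Finset.card_univ]
    symm
    refine Finset.card_bij (fun β _ => PB β) ?_ ?_ ?_
    · intro β _
      rw [mem_Fb]
      exact ⟨isMat_PB β, simp_PB β, gr_PB β⟩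
    · intro β _ β' _ h
      exact PB_inj β β' h
    · intro P hP
      obtain ⟨β, h⟩ := Fb_surj hP
      exact ⟨β, mem_univ _, h⟩
  rw [h1, Fintype.card_pi, ← Finset.prod_mul_distrib]
  have h2 : ∀ v : Fin n, Fintype.card ({w // G.Adj v w} ↪ Fin d) * (d - dg G v).factorial =
      d.factorial := by
    intro v
    have e : Fintype.card {w // G.Adj v w} = dg G v := by
      rw [← Nat.card_eq_fintype_card]
      rfl
    rw [Fintype.card_embedding_eq, e, Fintype.card_fin, mul_comm]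
    exact Nat.factorial_mul_descFactorial (hG v)
  rw [Finset.prod_congr rfl fun v _ => h2 v]
  simp

/-- number of uncovered half-edges -/
theorem unc_Fb {P : Finset (Sym2 (HE n d))} (hP : P ∈ Fb d G) (v : Fin n) :
    (univ.filter (fun a : Fin d => (v, a) ∉ cov P)).card = d - dg G v := by
  classical
  obtain ⟨β, rfl⟩ := Fb_surj hP
  have h1 := cov_PB β v
  have h2 := Finset.card_filter_add_card_filter_not (s := (univ : Finset (Fin d)))
    (fun a : Fin d => (v, a) ∈ cov (PB β))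
  rw [h1, Finset.card_univ, Fintype.card_fin] at h2
  omega

/-- The number of pairs. -/
theorem card_pairs {P : Finset (Sym2 (HE n d))} (hP : P ∈ Fb d G) (hG : ∀ v, dg G v ≤ d) :
    2 * P.card + dfc d G = d * n := by
  classical
  have hM := (mem_Fb.1 hP).1
  rw [← Pool.Agent.Helper11.T6.uni_cov P hM]
  have h1 : (cov P).card = ∑ v, dg G v := by
    have h2 : cov P = univ.filter (fun x : HE n d => x ∈ cov P) := by
      ext x
      simp
    rw [h2, Finset.card_filter, Fintype.sum_prod_type]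
    refine Finset.sum_congr rfl fun v _ => ?_
    rw [← Finset.card_filter]
    obtain ⟨β, rfl⟩ := Fb_surj hP
    exact cov_PB β v
  rw [h1]
  unfold dfc
  rw [← Finset.sum_add_distrib, Finset.sum_congr rfl (fun v _ => Nat.add_sub_of_le (hG v))]
  simp [mul_comm]

/-- The degrees of the graph of a simple partial pairing. -/
theorem dg_le {P : Finset (Sym2 (HE n d))} (hM : IsMat P) (hS : Simp P) (v : Fin n) :
    dg (Gr P) v ≤ d := by
  classical
  have hP : P ∈ Fb d (Gr P) := mem_Fb.2 ⟨hM, hS, rfl⟩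
  obtain ⟨β, hβ⟩ := Fb_surj hP
  have h := cov_PB β v
  rw [← h]
  refine (Finset.card_le_univ _).trans ?_
  simp

end Pool.Agent.Helper22.T7
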