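import Pool.Agent.Helper15.T6.Defs

set_option autoImplicit false

/-!
MP_2f9829_co: almost all graphs with maximum degree `d` are `d`-edge-choosable. Part 1: graphs with
maximum degree at most `d`, sorted by their total deficiency.
-/

open Finset

namespace Pool.Agent.Helper22.T7

/-- The degree of a vertex. -/
noncomputable def dg {V : Type} (G : SimpleGraph V) (v : V) : ℕ := (G.neighborSet v).ncard

open Classical in
/-- The graphs on `Fin n` with maximum degree at most `d`. -/
noncomputable def MD (d n : ℕ) : Finset (SimpleGraph (Fin n)) :=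
  univ.filter (fun G => ∀ v, dg G v ≤ d)

/-- The total deficiency. -/
noncomputable def dfc {n : ℕ} (d : ℕ) (G : SimpleGraph (Fin n)) : ℕ := ∑ v, (d - dg G v)

open Classical in
/-- The graphs on `Fin n` with maximum degree at most `d` and total deficiency `s`. -/
noncomputable def As (d n s : ℕ) : Finset (SimpleGraph (Fin n)) :=
  (MD d n).filter (fun G => dfc d G = s)

theorem mem_MD {d n : ℕ} {G : SimpleGraph (Fin n)} : G ∈ MD d n ↔ ∀ v, dg G v ≤ d := by
  classical
  simp [MD]

theorem mem_As {d n s : ℕ} {G : SimpleGraph (Fin n)} :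
    G ∈ As d n s ↔ (∀ v, dg G v ≤ d) ∧ dfc d G = s := by
  classical
  simp [As, mem_MD]

theorem dfc_le {d n : ℕ} (G : SimpleGraph (Fin n)) : dfc d G ≤ d * n := by
  unfold dfc
  calc ∑ v : Fin n, (d - dg G v) ≤ ∑ _v : Fin n, d := Finset.sum_le_sum fun v _ => Nat.sub_le _ _
    _ = d * n := by simp [mul_comm]

theorem As_empty {d n s : ℕ} (h : d * n < s) : As d n s = ∅ := by
  classical
  rw [Finset.eq_empty_iff_forall_notMem]
  intro G hG
  rw [mem_As] at hG
  have := dfc_le (d := d) G
  omega

open Classical in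
/-- the degree as the cardinality of a filter -/
theorem dg_eq {n : ℕ} (G : SimpleGraph (Fin n)) (v : Fin n) :
    dg G v = (univ.filter (fun w => G.Adj v w)).card := by
  unfold dg
  rw [← Set.ncard_coe_finset]
  congr 1
  ext w
  simp

theorem sum_dg {d n s : ℕ} {G : SimpleGraph (Fin n)} (hG : G ∈ As d n s) :
    ∑ v, dg G v = d * n - s := by
  rw [mem_As] at hG
  obtain ⟨h1, h2⟩ := hG
  have h3 : ∑ v, dg G v + dfc d G = d * n := by
    unfold dfc
    rw [← Finset.sum_add_distrib]
    rw [Finset.sum_congr rfl (fun v _ => Nat.add_sub_of_le (h1 v))]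
    simp [mul_comm]
  omega

/-! ### Adding and removing an edge -/

open Classical in
/-- ordered adjacent pairs -/
noncomputable def adP {n : ℕ} (G : SimpleGraph (Fin n)) : Finset (Fin n × Fin n) :=
  univ.filter (fun p => G.Adj p.1 p.2)

open Classical in
/-- ordered pairs where an edge can be added -/
noncomputable def nadP {n : ℕ} (d : ℕ) (G : SimpleGraph (Fin n)) : Finset (Fin n × Fin n) :=
  univ.filter (fun p => p.1 ≠ p.2 ∧ ¬ G.Adj p.1 p.2 ∧ dg G p.1 < d ∧ dg G p.2 < d)

theorem card_adP {n : ℕ} (G : SimpleGraph (Fin n)) : (adP G).card = ∑ v, dg G v := by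
  classical
  unfold adP
  rw [Finset.card_filter, ← Finset.univ_product_univ, Finset.sum_product]
  refine Finset.sum_congr rfl fun v _ => ?_
  rw [dg_eq, Finset.card_filter]

/-- add an edge -/
def addE {n : ℕ} (G : SimpleGraph (Fin n)) (u v : Fin n) : SimpleGraph (Fin n) where
  Adj x y := G.Adj x y ∨ (x ≠ y ∧ ((x = u ∧ y = v) ∨ (x = v ∧ y = u)))
  symm := ⟨fun x y h => by
    rcases h with h | ⟨h, h'⟩
    · exact Or.inl h.symm
    · exact Or.inr ⟨h.symm, h'.symm.imp (fun h => ⟨h.2, h.1⟩) (fun h => ⟨h.2, h.1⟩)⟩⟩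
  loopless := ⟨fun x h => by
    rcases h with h | ⟨h, _⟩
    · exact G.loopless.irrefl x h
    · exact h rfl⟩

/-- remove an edge -/
def delE {n : ℕ} (G : SimpleGraph (Fin n)) (u v : Fin n) : SimpleGraph (Fin n) where
  Adj x y := G.Adj x y ∧ ¬ ((x = u ∧ y = v) ∨ (x = v ∧ y = u))
  symm := ⟨fun x y h => ⟨h.1.symm, fun h' => h.2 (h'.symm.imp (fun h => ⟨h.2, h.1⟩)
    (fun h => ⟨h.2, h.1⟩))⟩⟩
  loopless := ⟨fun x h => G.loopless.irrefl x h.1⟩

theorem delE_addE {n : ℕ} {G : SimpleGraph (Fin n)} {u v : Fin n} (h : ¬ G.Adj u v) :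
    delE (addE G u v) u v = G := by
  ext x y
  change ((G.Adj x y ∨ _) ∧ _) ↔ _
  constructor
  · rintro ⟨h1 | h1, h2⟩
    · exact h1
    · exact absurd h1.2 h2
  · intro h1
    refine ⟨Or.inl h1, ?_⟩
    rintro (⟨rfl, rfl⟩ | ⟨rfl, rfl⟩)
    · exact h h1
    · exact h h1.symm

theorem addE_delE {n : ℕ} {G : SimpleGraph (Fin n)} {u v : Fin n} (h : G.Adj u v) :
    addE (delE G u v) u v = G := by
  ext x y
  change ((G.Adj x y ∧ _) ∨ _) ↔ _
  constructor
  · rintro (h1 | ⟨_, ⟨rfl, rfl⟩ | ⟨rfl, rfl⟩⟩)
    · exact h1.1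
    · exact h
    · exact h.symm
  · intro h1
    by_cases h2 : (x = u ∧ y = v) ∨ (x = v ∧ y = u)
    · exact Or.inr ⟨h1.ne, h2⟩
    · exact Or.inl ⟨h1, h2⟩

open Classical in
theorem dg_addE {n : ℕ} {G : SimpleGraph (Fin n)} {u v : Fin n} (huv : u ≠ v) (h : ¬ G.Adj u v)
    (x : Fin n) : dg (addE G u v) x = dg G x + (if x = u ∨ x = v then 1 else 0) := by
  have key : ∀ a b : Fin n, a ≠ b → ¬ G.Adj a b →
      (univ.filter (fun w => G.Adj a w ∨ w = b)).card = (univ.filter (fun w => G.Adj a w)).card + 1 := by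
    intro a b hab hnab
    have : univ.filter (fun w => G.Adj a w ∨ w = b) = insert b (univ.filter (fun w => G.Adj a w)) := by
      ext w
      simp only [mem_filter, mem_univ, true_and, mem_insert]
      tauto
    rw [this, Finset.card_insert_of_notMem]
    simpa using hnab
  rw [dg_eq, dg_eq]
  by_cases hu : x = u
  · subst hu
    rw [if_pos (Or.inl rfl), ← key x v huv h]
    congr 1
    ext w
    simp only [mem_filter, mem_univ, true_and]
    change (G.Adj x w ∨ _) ↔ _
    constructor
    · rintro (h1 | ⟨_, ⟨_, h1⟩ | ⟨h1, _⟩⟩)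
      · exact Or.inl h1
      · exact Or.inr h1
      · exact absurd h1 huv
    · rintro (h1 | rfl)
      · exact Or.inl h1
      · exact Or.inr ⟨huv, Or.inl ⟨rfl, rfl⟩⟩
  · by_cases hv : x = v
    · subst hv
      rw [if_pos (Or.inr rfl), ← key x u huv.symm (fun h' => h h'.symm)]
      congr 1
      ext w
      simp only [mem_filter, mem_univ, true_and]
      change (G.Adj x w ∨ _) ↔ _
      constructor
      · rintro (h1 | ⟨_, ⟨h1, _⟩ | ⟨_, h1⟩⟩)
        · exact Or.inl h1
        · exact absurd h1 hu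
        · exact Or.inr h1
      · rintro (h1 | rfl)
        · exact Or.inl h1
        · exact Or.inr ⟨huv.symm, Or.inr ⟨rfl, rfl⟩⟩
    · rw [if_neg (by tauto), add_zero]
      congr 1
      ext w
      simp only [mem_filter, mem_univ, true_and]
      change (G.Adj x w ∨ _) ↔ _
      constructor
      · rintro (h1 | ⟨_, ⟨h1, _⟩ | ⟨h1, _⟩⟩)
        · exact h1
        · exact absurd h1 hu
        · exact absurd h1 hv
      · exact Or.inl

theorem dfc_addE {d n : ℕ} {G : SimpleGraph (Fin n)} {u v : Fin n} (huv : u ≠ v) (h : ¬ G.Adj u v)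
    (hu : dg G u < d) (hv : dg G v < d) : dfc d (addE G u v) + 2 = dfc d G := by
  classical
  unfold dfc
  have h1 : ∀ x : Fin n, d - dg G x = (d - dg (addE G u v) x) +
      ((if x = u then 1 else 0) + (if x = v then 1 else 0)) := by
    intro x
    rw [dg_addE huv h x]
    by_cases hxu : x = u
    · subst hxu
      rw [if_pos (Or.inl rfl), if_pos rfl, if_neg huv]
      omega
    · by_cases hxv : x = v
      · subst hxv
        rw [if_pos (Or.inr rfl), if_neg hxu, if_pos rfl]
        omega
      · rw [if_neg (by tauto), if_neg hxu, if_neg hxv]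
        omega
  rw [Finset.sum_congr rfl fun x _ => h1 x, Finset.sum_add_distrib, Finset.sum_add_distrib]
  simp

/-- Double counting of the pairs (graph, edge). -/
theorem double_count (d n s : ℕ) :
    (As d n s).card * (d * n - s) = ∑ H ∈ As d n (s + 2), (nadP d H).card := by
  classical
  have h1 : ∑ G ∈ As d n s, (adP G).card = (As d n s).card * (d * n - s) := by
    rw [Finset.sum_congr rfl fun G hG => (card_adP G).trans (sum_dg hG), Finset.sum_const, smul_eq_mul]
  rw [← h1, ← Finset.card_sigma, ← Finset.card_sigma]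
  refine Finset.card_bij (fun a _ => ⟨delE a.1 a.2.1 a.2.2, a.2⟩) ?_ ?_ ?_
  · rintro ⟨G, u, v⟩ h
    rw [Finset.mem_sigma] at h ⊢
    obtain ⟨hG, hp⟩ := h
    simp only [adP, mem_filter, mem_univ, true_and] at hp
    rw [mem_As] at hG
    dsimp only at hG hp
    have hn : ¬ (delE G u v).Adj u v := fun h' => h'.2 (Or.inl ⟨rfl, rfl⟩)
    have hd := dg_addE (G := delE G u v) hp.ne hn
    rw [addE_delE hp] at hd
    have hu := hd u
    have hv := hd v
    rw [if_pos (Or.inl rfl)] at hu
    rw [if_pos (Or.inr rfl)] at hv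
    have hu1 := hG.1 u
    have hv1 := hG.1 v
    refine ⟨?_, ?_⟩
    · rw [mem_As]
      refine ⟨fun x => ?_, ?_⟩
      · have := hd x
        have := hG.1 x
        dsimp only
        omega
      · have h2 := dfc_addE (d := d) (G := delE G u v) hp.ne hn (by omega) (by omega)
        rw [addE_delE hp, hG.2] at h2
        exact h2.symm
    · simp only [nadP, mem_filter, mem_univ, true_and]
      exact ⟨hp.ne, hn, by omega, by omega⟩
  · rintro ⟨G, u, v⟩ h ⟨G', u', v'⟩ h' heq
    simp only [Sigma.mk.injEq, heq_eq_eq, Prod.mk.injEq] at heq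
    obtain ⟨h1, rfl, rfl⟩ := heq
    rw [Finset.mem_sigma] at h h'
    have hp := h.2
    have hp' := h'.2
    simp only [adP, mem_filter, mem_univ, true_and] at hp hp'
    have : G = G' := by
      rw [← addE_delE hp, ← addE_delE hp', h1]
    rw [this]
  · rintro ⟨H, u, v⟩ h
    rw [Finset.mem_sigma] at h
    obtain ⟨hH, hp⟩ := h
    simp only [nadP, mem_filter, mem_univ, true_and] at hp
    obtain ⟨huv, hn, hu, hv⟩ := hp
    rw [mem_As] at hH
    dsimp only at hH huv hn hu hv
    refine ⟨⟨addE H u v, u, v⟩, ?_, ?_⟩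
    · rw [Finset.mem_sigma]
      refine ⟨?_, ?_⟩
      · rw [mem_As]
        refine ⟨fun x => ?_, ?_⟩
        · dsimp only
          rw [dg_addE huv hn x]
          by_cases hx : x = u ∨ x = v
          · rw [if_pos hx]
            rcases hx with rfl | rfl <;> omega
          · rw [if_neg hx]
            exact hH.1 x
        · have := dfc_addE (d := d) huv hn hu hv
          dsimp only
          omega
      · simp only [adP, mem_filter, mem_univ, true_and]
        exact Or.inr ⟨huv, Or.inl ⟨rfl, rfl⟩⟩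
    · simp only [delE_addE hn]

open Classical in
/-- the deficient vertices -/
noncomputable def Dv {n : ℕ} (d : ℕ) (G : SimpleGraph (Fin n)) : Finset (Fin n) :=
  univ.filter (fun v => dg G v < d)

theorem dfc_le_Dv {d n : ℕ} (G : SimpleGraph (Fin n)) : dfc d G ≤ d * (Dv d G).card := by
  classical
  unfold dfc Dv
  rw [Finset.card_filter, Finset.mul_sum]
  refine Finset.sum_le_sum fun v _ => ?_
  split_ifs with h
  · omega
  · omega

theorem Dv_le_dfc {d n : ℕ} (G : SimpleGraph (Fin n)) : (Dv d G).card ≤ dfc d G := by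
  classical
  unfold dfc Dv
  rw [Finset.card_filter]
  refine Finset.sum_le_sum fun v _ => ?_
  split_ifs with h
  · omega
  · omega

theorem nadP_le {d n : ℕ} (G : SimpleGraph (Fin n)) : (nadP d G).card ≤ (dfc d G) ^ 2 := by
  classical
  calc (nadP d G).card ≤ (Dv d G ×ˢ Dv d G).card := by
        refine Finset.card_le_card fun p hp => ?_
        simp only [nadP, Dv, mem_filter, mem_univ, true_and, mem_product] at hp ⊢
        exact hp.2.2
    _ = (Dv d G).card ^ 2 := by rw [Finset.card_product, sq]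
    _ ≤ _ := Nat.pow_le_pow_left (Dv_le_dfc G) 2

theorem le_nadP {d n : ℕ} (G : SimpleGraph (Fin n)) (hG : G ∈ MD d n) :
    (Dv d G).card * (Dv d G).card ≤ (nadP d G).card + (Dv d G).card * (d + 1) := by
  classical
  rw [mem_MD] at hG
  have h1 : Dv d G ×ˢ Dv d G ⊆ nadP d G ∪ (Dv d G).biUnion (fun u =>
      (insert u (univ.filter (fun w => G.Adj u w))).image (fun w => (u, w))) := by
    rintro ⟨u, v⟩ hp
    rw [mem_product] at hp
    rw [mem_union, mem_biUnion]
    by_cases h : u ≠ v ∧ ¬ G.Adj u v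
    · left
      simp only [nadP, Dv, mem_filter, mem_univ, true_and] at hp ⊢
      exact ⟨h.1, h.2, hp⟩
    · right
      refine ⟨u, hp.1, ?_⟩
      rw [mem_image]
      refine ⟨v, ?_, rfl⟩
      rw [mem_insert, mem_filter]
      by_cases h2 : u = v
      · exact Or.inl h2.symm
      · right
        refine ⟨mem_univ _, ?_⟩
        by_contra h3
        exact h ⟨h2, h3⟩
  have h2 := Finset.card_le_card h1
  rw [card_product] at h2
  refine h2.trans ((Finset.card_union_le _ _).trans ?_)
  gcongr
  refine Finset.card_biUnion_le.trans ?_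
  calc ∑ u ∈ Dv d G, ((insert u (univ.filter (fun w => G.Adj u w))).image (fun w => (u, w))).card
      ≤ ∑ _u ∈ Dv d G, (d + 1) := by
        refine Finset.sum_le_sum fun u _ => ?_
        refine Finset.card_image_le.trans ((Finset.card_insert_le _ _).trans ?_)
        have := hG u
        rw [dg_eq] at this
        omega
    _ = _ := by rw [Finset.sum_const, smul_eq_mul]

end Pool.Agent.Helper22.T7
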