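import Pool.Agent.Helper22.T7.Tail
import Pool.Agent.Helper11.T6.UNI
import Pool.Agent.Helper84.T4.EXTM
import Pool.Agent.Helper48.T6.GIR2

set_option autoImplicit false

/-!
MP_2f9829_co: almost all graphs with maximum degree `d` are `d`-edge-choosable. Part 3: partial pairings.
-/

open Finset

namespace Pool.Agent.Helper22.T7

open Pool.Agent.Helper15.T4 (IsPM PM cov IsMat ST_CARD ST_EXTM)
open Pool.Agent.Helper15.T6
open Pool.Agent.Helper84.T4 (mem_PM mem_cov)

section Basic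

variable {H : Type} [Fintype H]

theorem IsMat.uniq {F : Finset (Sym2 H)} (hF : IsMat F) {h a b : H} (ha : s(h, a) ∈ F)
    (hb : s(h, b) ∈ F) : a = b := by
  have hc : h ∈ cov F := (mem_cov F h).2 ⟨_, ha, Sym2.mem_mk_left h a⟩
  have he := (hF.2.2 h hc).unique ⟨ha, Sym2.mem_mk_left h a⟩ ⟨hb, Sym2.mem_mk_left h b⟩
  exact Sym2.congr_right.mp he

theorem IsPM.isMat_of_subset {s : Finset H} {Q P : Finset (Sym2 H)} (hQ : IsPM s Q) (hP : P ⊆ Q) :
    IsMat P := by
  refine ⟨fun e he => hQ.1 e (hP he), fun e he h hh => (mem_cov P h).2 ⟨e, he, hh⟩, fun h hh => ?_⟩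
  obtain ⟨e, he, hhe⟩ := (mem_cov P h).1 hh
  refine ⟨e, ⟨he, hhe⟩, ?_⟩
  rintro e' ⟨he', hhe'⟩
  exact (hQ.2.2 h (hQ.2.1 e (hP he) h hhe)).unique ⟨hP he', hhe'⟩ ⟨hP he, hhe⟩

theorem IsPM.cov_eq {s : Finset H} {Q : Finset (Sym2 H)} (hQ : IsPM s Q) : cov Q = s := by
  ext h
  rw [mem_cov]
  constructor
  · rintro ⟨e, he, hh⟩
    exact hQ.2.1 e he h hh
  · intro hh
    obtain ⟨e, ⟨he, hhe⟩, _⟩ := hQ.2.2 h hh
    exact ⟨e, he, hhe⟩

theorem IsPM.card [DecidableEq H] {s : Finset H} {Q : Finset (Sym2 H)} (hQ : IsPM s Q) :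
    s.card = 2 * Q.card := by
  have h := Pool.Agent.Helper11.T6.uni_cov Q (IsPM.isMat_of_subset hQ (Finset.Subset.refl Q))
  rwa [IsPM.cov_eq hQ] at h

open Classical in
/-- The partial pairings with `r` pairs. -/
noncomputable def PP (H : Type) [Fintype H] (r : ℕ) : Finset (Finset (Sym2 H)) :=
  univ.filter (fun P => IsMat P ∧ P.card = r)

theorem mem_PP {r : ℕ} {P : Finset (Sym2 H)} : P ∈ PP H r ↔ IsMat P ∧ P.card = r := by
  classical
  simp [PP]

/-- the number of pairings of `2 k` points -/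
def dfac (k : ℕ) : ℕ := ∏ i ∈ range k, (2 * i + 1)

theorem dfac_pos (k : ℕ) : 0 < dfac k := Finset.prod_pos fun i _ => by omega

theorem card_ext [DecidableEq H] (hC : ST_CARD) (hE : ST_EXTM) {m r : ℕ}
    (hm : Fintype.card H = 2 * m) {P : Finset (Sym2 H)} (hP : P ∈ PP H r) :
    r ≤ m ∧ ((PM (univ : Finset H)).filter (fun Q => P ⊆ Q)).card = dfac (m - r) := by
  classical
  rw [mem_PP] at hP
  have hc := Pool.Agent.Helper11.T6.uni_cov P hP.1
  have hle : (cov P).card ≤ Fintype.card H := Finset.card_le_univ _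
  have hr : r ≤ m := by
    rw [hc, hP.2, hm] at hle
    omega
  refine ⟨hr, ?_⟩
  have h4 := hE H P (fun _ => 1) hP.1
  simp only [Finset.prod_const_one, Finset.sum_const, nsmul_eq_mul, mul_one, one_mul] at h4
  have h5 : (PM (cov P)ᶜ).card = dfac (m - r) := by
    apply hC
    rw [Finset.card_compl, hm, hc, hP.2]
    omega
  rw [h5] at h4
  exact_mod_cast h4

/-- Double counting of the pairs (partial pairing, completion). -/
theorem dc [DecidableEq H] (hC : ST_CARD) (hE : ST_EXTM) {m r : ℕ}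
    (hm : Fintype.card H = 2 * m) (F : Finset (Sym2 H) → ℝ) :
    (∑ P ∈ PP H r, F P) * (dfac (m - r) : ℝ) =
      ∑ Q ∈ PM (univ : Finset H), ∑ P ∈ powersetCard r Q, F P := by
  classical
  have h1 : ∀ Q ∈ PM (univ : Finset H), ∑ P ∈ powersetCard r Q, F P =
      ∑ P ∈ PP H r, if P ⊆ Q then F P else 0 := by
    intro Q hQ
    rw [mem_PM] at hQ
    rw [← Finset.sum_filter]
    refine Finset.sum_congr ?_ fun _ _ => rfl
    ext P
    rw [mem_powersetCard, mem_filter, mem_PP]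
    constructor
    · rintro ⟨h1, h2⟩
      exact ⟨⟨IsPM.isMat_of_subset hQ h1, h2⟩, h1⟩
    · rintro ⟨⟨_, h2⟩, h1⟩
      exact ⟨h1, h2⟩
  rw [Finset.sum_congr rfl h1, Finset.sum_comm, Finset.sum_mul]
  refine Finset.sum_congr rfl fun P hP => ?_
  rw [← Finset.sum_filter, Finset.sum_const, (card_ext hC hE hm hP).2, nsmul_eq_mul, mul_comm]

/-- The number of partial pairings. -/
theorem card_PP [DecidableEq H] (hC : ST_CARD) (hE : ST_EXTM) {m r : ℕ}
    (hm : Fintype.card H = 2 * m) :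
    ((PP H r).card : ℝ) * (dfac (m - r) : ℝ) =
      ((PM (univ : Finset H)).card : ℝ) * (m.choose r : ℝ) := by
  classical
  have h := dc hC hE (r := r) hm (fun _ => 1)
  have h1 : ∀ Q ∈ PM (univ : Finset H), ∑ _P ∈ powersetCard r Q, (1 : ℝ) = (m.choose r : ℝ) := by
    intro Q hQ
    rw [mem_PM] at hQ
    have h2 := IsPM.card hQ
    rw [Finset.card_univ, hm] at h2
    rw [Finset.sum_const, Finset.card_powersetCard, nsmul_eq_mul, mul_one]
    congr 2
    omega
  rw [Finset.sum_congr rfl h1] at h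
  simpa using h

/-- Sums of functions of the uncovered set. -/
theorem sum_unc [DecidableEq H] (hC : ST_CARD) {m r : ℕ} (hm : Fintype.card H = 2 * m)
    (hr : r ≤ m) (φ : Finset H → ℝ) :
    ∑ P ∈ PP H r, φ (cov P)ᶜ =
      (dfac r : ℝ) * ∑ U ∈ powersetCard (2 * (m - r)) (univ : Finset H), φ U := by
  classical
  have hmaps : ∀ P ∈ PP H r, (cov P)ᶜ ∈ powersetCard (2 * (m - r)) (univ : Finset H) := by
    intro P hP
    rw [mem_PP] at hP
    rw [mem_powersetCard]
    refine ⟨Finset.subset_univ _, ?_⟩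
    rw [Finset.card_compl, hm, Pool.Agent.Helper11.T6.uni_cov P hP.1, hP.2]
    omega
  rw [← Finset.sum_fiberwise_of_maps_to hmaps, Finset.mul_sum]
  refine Finset.sum_congr rfl fun U hU => ?_
  rw [mem_powersetCard] at hU
  have h1 : ∀ P ∈ (PP H r).filter (fun P => (cov P)ᶜ = U), φ (cov P)ᶜ = φ U := by
    intro P hP
    rw [(mem_filter.1 hP).2]
  rw [Finset.sum_congr rfl h1, Finset.sum_const, nsmul_eq_mul]
  congr 2
  have h2 : (PP H r).filter (fun P => (cov P)ᶜ = U) = PM Uᶜ := by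
    ext P
    rw [mem_filter, mem_PP, mem_PM]
    constructor
    · rintro ⟨⟨h3, h4⟩, h5⟩
      have : Uᶜ = cov P := by rw [← h5, compl_compl]
      rw [this]
      exact h3
    · intro h3
      have h4 := IsPM.cov_eq h3
      have h5 := IsPM.card h3
      rw [Finset.card_compl, hm, hU.2] at h5
      refine ⟨⟨?_, by omega⟩, by rw [h4, compl_compl]⟩
      exact IsPM.isMat_of_subset h3 (Finset.Subset.refl P)
  rw [h2]
  apply hC
  rw [Finset.card_compl, hm, hU.2]
  omega

end Basic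

section Simple

variable {n d : ℕ}

/-- No loop and no double edge. -/
def Simp (M : Finset (Sym2 (HE n d))) : Prop :=
  (∀ v a b, s((v, a), (v, b)) ∉ M) ∧ ∀ v w a a' b b', s((v, a), (w, b)) ∈ M →
    s((v, a'), (w, b')) ∈ M → a = a'

theorem Simp.mono {P Q : Finset (Sym2 (HE n d))} (h : Simp Q) (hPQ : P ⊆ Q) : Simp P :=
  ⟨fun v a b hab => h.1 v a b (hPQ hab), fun v w a a' b b' h1 h2 =>
    h.2 v w a a' b b' (hPQ h1) (hPQ h2)⟩

theorem simp_of_noShort {Q : Finset (Sym2 (HE n d))} (hQ : Q ∈ PM (univ : Finset (HE n d)))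
    (h : NoShort 3 Q) : Simp Q := by
  rw [mem_PM] at hQ
  refine ⟨?_, ?_⟩
  · intro v a b hab
    have := Pool.Agent.Helper48.T6.GIR2aux.no_loop (le_refl 3) hQ h hab
    exact this rfl
  · intro v w a a' b b' h1 h2
    exact Pool.Agent.Helper48.T6.GIR2aux.no_double (le_refl 3) hQ h h1 h2

theorem noShort_of_simp {Q : Finset (Sym2 (HE n d))} (h : Simp Q) : NoShort 3 Q := by
  intro k hk c hc hE
  have hk' : k = 0 ∨ k = 1 := by omega
  rcases hk' with rfl | rfl
  · have h1 : s(((c 0).1, (c 0).2.2), ((c (0 + 1)).1, (c (0 + 1)).2.1)) ∈ Q :=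
      hE (mem_image.2 ⟨0, mem_univ _, rfl⟩)
    have h2 : (0 : Fin 1) + 1 = 0 := by decide
    rw [h2] at h1
    exact h.1 _ _ _ h1
  · have h1 : s(((c 0).1, (c 0).2.2), ((c (0 + 1)).1, (c (0 + 1)).2.1)) ∈ Q :=
      hE (mem_image.2 ⟨0, mem_univ _, rfl⟩)
    have h2 : s(((c 1).1, (c 1).2.2), ((c (1 + 1)).1, (c (1 + 1)).2.1)) ∈ Q :=
      hE (mem_image.2 ⟨1, mem_univ _, rfl⟩)
    have e1 : (0 : Fin 2) + 1 = 1 := by decide
    have e2 : (1 : Fin 2) + 1 = 0 := by decide
    rw [e1] at h1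
    rw [e2, Sym2.eq_swap] at h2
    exact hc.2 0 (h.2 _ _ _ _ _ _ h1 h2).symm

/-- A pairing that is not simple has two pairs (perhaps equal) that are not both contained in a simple
subset. -/
theorem bad_pairs {Q : Finset (Sym2 (HE n d))} (h : ¬ Simp Q) : ∃ e₁ ∈ Q, ∃ e₂ ∈ Q,
    ∀ P, Simp P → e₁ ∉ P ∨ e₂ ∉ P := by
  unfold Simp at h
  by_cases h1 : ∀ v a b, s((v, a), (v, b)) ∉ Q
  · have h2 : ¬ ∀ v w a a' b b', s((v, a), (w, b)) ∈ Q → s((v, a'), (w, b')) ∈ Q → a = a' :=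
      fun h2 => h ⟨h1, h2⟩
    push Not at h2
    obtain ⟨v, w, a, a', b, b', h3, h4, h5⟩ := h2
    refine ⟨_, h3, _, h4, fun P hP => ?_⟩
    by_contra h6
    push Not at h6
    exact h5 (hP.2 _ _ _ _ _ _ h6.1 h6.2)
  · push Not at h1
    obtain ⟨v, a, b, hab⟩ := h1
    exact ⟨_, hab, _, hab, fun P hP => Or.inl (hP.1 v a b)⟩

/-- The number of the simple subsets with `r` pairs of a pairing which is not simple. -/
theorem card_simp_sub {m r : ℕ} {Q : Finset (Sym2 (HE n d))} (hc : Q.card = m) (h : ¬ Simp Q)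
    [DecidablePred (fun P : Finset (Sym2 (HE n d)) => Simp P)] :
    (m * ((powersetCard r Q).filter (fun P => Simp P)).card) ≤ 2 * ((m - r) * m.choose r) := by
  classical
  obtain ⟨e₁, h1, e₂, h2, h3⟩ := bad_pairs h
  have hm : 0 < m := by
    rw [← hc]
    exact Finset.card_pos.2 ⟨e₁, h1⟩
  have hsub : (powersetCard r Q).filter (fun P => Simp P) ⊆
      powersetCard r (Q.erase e₁) ∪ powersetCard r (Q.erase e₂) := by
    intro P hP
    rw [mem_filter, mem_powersetCard] at hP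
    rw [mem_union, mem_powersetCard, mem_powersetCard]
    rcases h3 P hP.2 with h4 | h4
    · left
      exact ⟨Finset.subset_erase.2 ⟨hP.1.1, h4⟩, hP.1.2⟩
    · right
      exact ⟨Finset.subset_erase.2 ⟨hP.1.1, h4⟩, hP.1.2⟩
  have h4 := (Finset.card_le_card hsub).trans (Finset.card_union_le _ _)
  rw [card_powersetCard, card_powersetCard, Finset.card_erase_of_mem h1,
    Finset.card_erase_of_mem h2, hc] at h4
  have h5 : (m - 1).choose r * m = m.choose r * (m - r) := by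
    obtain ⟨m', rfl⟩ : ∃ m', m = m' + 1 := ⟨m - 1, by omega⟩
    have := Nat.choose_mul_succ_eq m' r
    simpa using this
  calc m * ((powersetCard r Q).filter (fun P => Simp P)).card
      ≤ m * ((m - 1).choose r + (m - 1).choose r) := Nat.mul_le_mul_left _ h4
    _ = 2 * ((m - 1).choose r * m) := by ring
    _ = _ := by rw [h5]; ring

end Simple

end Pool.Agent.Helper22.T7
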