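import Pool.Agent.Helper22.T7.Graph

set_option autoImplicit false

/-!
MP_2f9829_co: almost all graphs with maximum degree `d` are `d`-edge-choosable. Part 2: the total
deficiency is of order `√n` for almost all graphs.
-/

open Finset

namespace Pool.Agent.Helper22.T7

theorem ratio_up {d n s : ℕ} (h1 : 2 * d * (d + 1) ≤ s + 2) (h2 : 4 * d ^ 3 * n ≤ (s + 2) ^ 2) :
    2 * (As d n (s + 2)).card ≤ (As d n s).card := by
  classical
  rcases Nat.eq_zero_or_pos (d * n) with h0 | h0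
  · rw [As_empty (by omega : d * n < s + 2)]
    simp
  have hd : 0 < d := Nat.pos_of_mul_pos_right h0 |> fun _ => by
    rcases Nat.eq_zero_or_pos d with h | h
    · subst h
      simp at h0
    · exact h
  have key : ∀ H ∈ As d n (s + 2), 2 * (d * n) ≤ (nadP d H).card := by
    intro H hH
    have hMD : H ∈ MD d n := by
      rw [mem_As] at hH
      rw [mem_MD]
      exact hH.1
    rw [mem_As] at hH
    have hD := dfc_le_Dv (d := d) H
    rw [hH.2] at hD
    have hN := le_nadP H hMD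
    set D := (Dv d H).card with hDdef
    have h3 : 2 * (d + 1) ≤ D := by
      have : d * (2 * (d + 1)) ≤ d * D := by
        calc d * (2 * (d + 1)) = 2 * d * (d + 1) := by ring
          _ ≤ s + 2 := h1
          _ ≤ _ := hD
      exact Nat.le_of_mul_le_mul_left this hd
    have h4 : 4 * d * n ≤ D * D := by
      have : d ^ 2 * (4 * d * n) ≤ d ^ 2 * (D * D) := by
        calc d ^ 2 * (4 * d * n) = 4 * d ^ 3 * n := by ring
          _ ≤ (s + 2) ^ 2 := h2
          _ ≤ (d * D) ^ 2 := Nat.pow_le_pow_left hD 2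
          _ = _ := by ring
      exact Nat.le_of_mul_le_mul_left this (by positivity)
    have h5 : D * (2 * (d + 1)) ≤ D * D := Nat.mul_le_mul_left D h3
    nlinarith
  have h3 := double_count d n s
  have h4 : (As d n (s + 2)).card * (2 * (d * n)) ≤ ∑ H ∈ As d n (s + 2), (nadP d H).card := by
    rw [← smul_eq_mul, ← Finset.sum_const]
    exact Finset.sum_le_sum key
  rw [← h3] at h4
  have h5 : (As d n s).card * (d * n - s) ≤ (As d n s).card * (d * n) :=
    Nat.mul_le_mul_left _ (Nat.sub_le _ _)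
  have h6 : (2 * (As d n (s + 2)).card) * (d * n) ≤ (As d n s).card * (d * n) := by
    calc (2 * (As d n (s + 2)).card) * (d * n) = (As d n (s + 2)).card * (2 * (d * n)) := by ring
      _ ≤ _ := h4.trans h5
  exact Nat.le_of_mul_le_mul_right h6 h0

theorem ratio_low {d n s : ℕ} (h : 2 * (s + 2) ^ 2 ≤ d * n - s) :
    2 * (As d n s).card ≤ (As d n (s + 2)).card := by
  classical
  have h3 := double_count d n s
  have h4 : ∑ H ∈ As d n (s + 2), (nadP d H).card ≤ (As d n (s + 2)).card * (s + 2) ^ 2 := by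
    rw [← smul_eq_mul, ← Finset.sum_const]
    refine Finset.sum_le_sum fun H hH => ?_
    rw [mem_As] at hH
    have := nadP_le (d := d) H
    rwa [hH.2] at this
  rw [← h3] at h4
  have h5 : (As d n s).card * (2 * (s + 2) ^ 2) ≤ (As d n s).card * (d * n - s) :=
    Nat.mul_le_mul_left _ h
  have h6 : (2 * (As d n s).card) * (s + 2) ^ 2 ≤ (As d n (s + 2)).card * (s + 2) ^ 2 := by
    calc (2 * (As d n s).card) * (s + 2) ^ 2 = (As d n s).card * (2 * (s + 2) ^ 2) := by ring
      _ ≤ _ := h5.trans h4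
  exact Nat.le_of_mul_le_mul_right h6 (by positivity)

theorem up_pow {d n s1 : ℕ} (h1 : 2 * d * (d + 1) ≤ s1) (h2 : 4 * d ^ 3 * n ≤ s1 ^ 2) (J : ℕ) :
    ∀ s, s1 ≤ s → 2 ^ J * (As d n (s + 2 * J)).card ≤ (As d n s).card := by
  induction J with
  | zero => intro s _; simp
  | succ J ih =>
    intro s hs
    have h3 := ih s hs
    have h4 : 2 * (As d n (s + 2 * J + 2)).card ≤ (As d n (s + 2 * J)).card := by
      apply ratio_up
      · omega
      · exact h2.trans (Nat.pow_le_pow_left (by omega) 2)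
    calc 2 ^ (J + 1) * (As d n (s + 2 * (J + 1))).card
        = 2 ^ J * (2 * (As d n (s + 2 * J + 2)).card) := by
          rw [pow_succ]
          ring_nf
      _ ≤ 2 ^ J * (As d n (s + 2 * J)).card := Nat.mul_le_mul_left _ h4
      _ ≤ _ := h3

theorem low_pow {d n s0 : ℕ} (h1 : 2 * s0 ^ 2 + s0 ≤ d * n) (J : ℕ) :
    ∀ s, s + 2 * J ≤ s0 → 2 ^ J * (As d n s).card ≤ (As d n (s + 2 * J)).card := by
  induction J with
  | zero => intro s _; simp
  | succ J ih =>
    intro s hs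
    have h3 := ih s (by omega)
    have h4 : 2 * (As d n (s + 2 * J)).card ≤ (As d n (s + 2 * J + 2)).card := by
      apply ratio_low
      have : (s + 2 * J + 2) ^ 2 ≤ s0 ^ 2 := Nat.pow_le_pow_left (by omega) 2
      omega
    calc 2 ^ (J + 1) * (As d n s).card = 2 * (2 ^ J * (As d n s).card) := by
          rw [pow_succ]
          ring
      _ ≤ 2 * (As d n (s + 2 * J)).card := Nat.mul_le_mul_left _ h3
      _ ≤ _ := h4

/-- sums over the classes -/
theorem sum_MD {d n : ℕ} (φ : ℕ → ℝ) :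
    ∑ G ∈ MD d n, φ (dfc d G) = ∑ s ∈ range (d * n + 1), φ s * ((As d n s).card : ℝ) := by
  classical
  have hmaps : ∀ G ∈ MD d n, dfc d G ∈ range (d * n + 1) := by
    intro G _
    rw [mem_range]
    have := dfc_le (d := d) G
    omega
  rw [← Finset.sum_fiberwise_of_maps_to hmaps]
  refine Finset.sum_congr rfl fun s _ => ?_
  have : ∀ G ∈ (MD d n).filter (fun G => dfc d G = s), φ (dfc d G) = φ s := by
    intro G hG
    rw [(mem_filter.1 hG).2]
  rw [Finset.sum_congr rfl this, Finset.sum_const, nsmul_eq_mul, mul_comm]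
  rfl

theorem card_MD {d n : ℕ} : ((MD d n).card : ℝ) = ∑ s ∈ range (d * n + 1), ((As d n s).card : ℝ) := by
  have := sum_MD (d := d) (n := n) (fun _ => 1)
  simpa using this

/-- `a s = 0` beyond `d n`. -/
theorem As_zero {d n s : ℕ} (h : d * n + 1 ≤ s) : ((As d n s).card : ℝ) = 0 := by
  rw [As_empty (by omega)]
  simp

theorem tail_up {d n s1 : ℕ} (h1 : 2 * d * (d + 1) ≤ s1) (h2 : 4 * d ^ 3 * n ≤ s1 ^ 2) (J : ℕ) :
    2 ^ J * (((MD d n).filter (fun G => s1 + 2 * J ≤ dfc d G)).card : ℝ) ≤ ((MD d n).card : ℝ) := by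
  classical
  have e1 : (((MD d n).filter (fun G => s1 + 2 * J ≤ dfc d G)).card : ℝ) =
      ∑ s ∈ range (d * n + 1), (if s1 + 2 * J ≤ s then 1 else 0) * ((As d n s).card : ℝ) := by
    rw [← sum_MD (fun s => if s1 + 2 * J ≤ s then (1 : ℝ) else 0), Finset.card_filter]
    push_cast
    rfl
  have e2 : ∑ s ∈ range (d * n + 1), (if s1 + 2 * J ≤ s then 1 else 0) * ((As d n s).card : ℝ) ≤
      ∑ s ∈ Ico (s1 + 2 * J) (d * n + 1 + 2 * J), ((As d n s).card : ℝ) := by
    rw [← Finset.sum_filter_add_sum_filter_not (range (d * n + 1)) (fun s => s1 + 2 * J ≤ s)]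
    have z : ∑ s ∈ (range (d * n + 1)).filter (fun s => ¬ s1 + 2 * J ≤ s),
        (if s1 + 2 * J ≤ s then 1 else 0) * ((As d n s).card : ℝ) = 0 := by
      refine Finset.sum_eq_zero fun s hs => ?_
      rw [if_neg (mem_filter.1 hs).2, zero_mul]
    rw [z, add_zero]
    have z2 : ∑ s ∈ (range (d * n + 1)).filter (fun s => s1 + 2 * J ≤ s),
        (if s1 + 2 * J ≤ s then 1 else 0) * ((As d n s).card : ℝ) =
        ∑ s ∈ (range (d * n + 1)).filter (fun s => s1 + 2 * J ≤ s), ((As d n s).card : ℝ) := by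
      refine Finset.sum_congr rfl fun s hs => ?_
      rw [if_pos (mem_filter.1 hs).2, one_mul]
    rw [z2]
    refine Finset.sum_le_sum_of_subset_of_nonneg ?_ (fun s _ _ => Nat.cast_nonneg _)
    intro s hs
    rw [mem_filter, mem_range] at hs
    rw [mem_Ico]
    omega
  rw [e1]
  refine (mul_le_mul_of_nonneg_left e2 (by positivity)).trans ?_
  rw [← Finset.sum_Ico_add' (fun s => ((As d n s).card : ℝ)) s1 (d * n + 1) (2 * J), Finset.mul_sum,
    card_MD]
  calc ∑ s ∈ Ico s1 (d * n + 1), 2 ^ J * ((As d n (s + 2 * J)).card : ℝ)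
      ≤ ∑ s ∈ Ico s1 (d * n + 1), ((As d n s).card : ℝ) := by
        refine Finset.sum_le_sum fun s hs => ?_
        have := up_pow h1 h2 J s (mem_Ico.1 hs).1
        exact_mod_cast this
    _ ≤ _ := by
        refine Finset.sum_le_sum_of_subset_of_nonneg ?_ (fun s _ _ => Nat.cast_nonneg _)
        intro s hs
        rw [mem_Ico] at hs
        rw [mem_range]
        exact hs.2

theorem tail_low {d n s0 : ℕ} (h1 : 2 * s0 ^ 2 + s0 ≤ d * n) (J : ℕ) :
    2 ^ J * (((MD d n).filter (fun G => dfc d G + 2 * J ≤ s0)).card : ℝ) ≤ ((MD d n).card : ℝ) := by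
  classical
  have e1 : (((MD d n).filter (fun G => dfc d G + 2 * J ≤ s0)).card : ℝ) =
      ∑ s ∈ range (d * n + 1), (if s + 2 * J ≤ s0 then 1 else 0) * ((As d n s).card : ℝ) := by
    rw [← sum_MD (fun s => if s + 2 * J ≤ s0 then (1 : ℝ) else 0), Finset.card_filter]
    push_cast
    rfl
  rw [e1, Finset.mul_sum]
  have hs0 : s0 ≤ d * n := by omega
  have e2 : ∀ s ∈ range (d * n + 1), 2 ^ J * ((if s + 2 * J ≤ s0 then 1 else 0) *
      ((As d n s).card : ℝ)) ≤ (if s + 2 * J ≤ s0 then ((As d n (s + 2 * J)).card : ℝ) else 0) := by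
    intro s _
    split_ifs with h
    · rw [one_mul]
      have := low_pow h1 J s h
      exact_mod_cast this
    · simp
  refine (Finset.sum_le_sum e2).trans ?_
  rw [← Finset.sum_filter, card_MD]
  rw [← Finset.sum_image (f := fun s => ((As d n s).card : ℝ)) (g := fun s => s + 2 * J)
    (fun x _ y _ h => by simpa using h)]
  refine Finset.sum_le_sum_of_subset_of_nonneg ?_ (fun s _ _ => Nat.cast_nonneg _)
  intro s hs
  rw [mem_image] at hs
  obtain ⟨t, ht, rfl⟩ := hs
  rw [mem_filter] at ht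
  rw [mem_range]
  omega

theorem exp_sixth : Real.exp (1 / 6) ≤ 3 / 2 := by
  by_contra h
  push Not at h
  have h1 : (3 / 2 : ℝ) ^ 6 < Real.exp (1 / 6) ^ 6 := pow_lt_pow_left₀ h (by norm_num) (by norm_num)
  rw [← Real.exp_nat_mul] at h1
  have h2 : ((6 : ℕ) : ℝ) * (1 / 6) = 1 := by norm_num
  rw [h2] at h1
  have h3 := Real.exp_one_lt_d9
  norm_num at h1
  linarith

theorem pow_ratio {d s : ℕ} (hd : 3 ≤ d) (hs : 4 * d ^ 2 ≤ s) :
    (1 + ((s + 2 : ℕ) : ℝ)) ^ d ≤ 3 / 2 * (1 + (s : ℝ)) ^ d := by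
  have hd0 : (3 : ℝ) ≤ d := by exact_mod_cast hd
  have hs0 : 4 * (d : ℝ) ^ 2 ≤ s := by exact_mod_cast hs
  have hpos : 0 < 1 + (s : ℝ) := by positivity
  have h1 : (1 + ((s + 2 : ℕ) : ℝ)) = (1 + (s : ℝ)) * (1 + 2 / (1 + (s : ℝ))) := by
    push_cast
    field_simp
    ring
  rw [h1, mul_pow, mul_comm]
  refine mul_le_mul_of_nonneg_right ?_ (by positivity)
  have h2 : 1 + 2 / (1 + (s : ℝ)) ≤ Real.exp (2 / (1 + (s : ℝ))) := by
    have := Real.add_one_le_exp (2 / (1 + (s : ℝ)))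
    linarith
  calc (1 + 2 / (1 + (s : ℝ))) ^ d ≤ Real.exp (2 / (1 + (s : ℝ))) ^ d :=
        pow_le_pow_left₀ (by positivity) h2 d
    _ = Real.exp (d * (2 / (1 + (s : ℝ)))) := by rw [← Real.exp_nat_mul]
    _ ≤ Real.exp (1 / 6) := by
        apply Real.exp_le_exp.2
        rw [mul_div_assoc', div_le_div_iff₀ hpos (by norm_num)]
        nlinarith
    _ ≤ 3 / 2 := exp_sixth

/-- the moment of the deficiency -/
theorem moment {d n s1 : ℕ} (hd : 3 ≤ d) (h0 : 4 * d ^ 2 ≤ s1) (h1 : 2 * d * (d + 1) ≤ s1)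
    (h2 : 4 * d ^ 3 * n ≤ s1 ^ 2) :
    ∑ G ∈ MD d n, (1 + (dfc d G : ℝ)) ^ d ≤ 4 * (2 + (s1 : ℝ)) ^ d * ((MD d n).card : ℝ) := by
  classical
  have hsum := sum_MD (d := d) (n := n) (fun s => (1 + (s : ℝ)) ^ d)
  rw [hsum]
  set f : ℕ → ℝ := fun s => (1 + (s : ℝ)) ^ d * ((As d n s).card : ℝ) with hf
  have hf0 : ∀ s, 0 ≤ f s := fun s => by positivity
  have hrat : ∀ s, s1 ≤ s → f (s + 2) ≤ 3 / 4 * f s := by
    intro s hs
    have h3 := pow_ratio hd (h0.trans hs)
    have h4 : 2 * (As d n (s + 2)).card ≤ (As d n s).card := by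
      apply ratio_up
      · omega
      · exact h2.trans (Nat.pow_le_pow_left (by omega) 2)
    have h5 : 2 * ((As d n (s + 2)).card : ℝ) ≤ ((As d n s).card : ℝ) := by exact_mod_cast h4
    have h6 : (0 : ℝ) ≤ (1 + (s : ℝ)) ^ d := by positivity
    have h7 : (0 : ℝ) ≤ ((As d n (s + 2)).card : ℝ) := Nat.cast_nonneg _
    calc f (s + 2) ≤ (3 / 2 * (1 + (s : ℝ)) ^ d) * ((As d n (s + 2)).card : ℝ) :=
          mul_le_mul_of_nonneg_right h3 h7
      _ = 3 / 4 * ((1 + (s : ℝ)) ^ d * (2 * ((As d n (s + 2)).card : ℝ))) := by ring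
      _ ≤ 3 / 4 * ((1 + (s : ℝ)) ^ d * ((As d n s).card : ℝ)) := by gcongr
      _ = _ := rfl
  have hT1 : ∑ s ∈ Ico (s1 + 2) (d * n + 1 + 2), f s ≤ 3 / 4 * ∑ s ∈ Ico s1 (d * n + 1), f s := by
    rw [← Finset.sum_Ico_add' f s1 (d * n + 1) 2, Finset.mul_sum]
    exact Finset.sum_le_sum fun s hs => hrat s (mem_Ico.1 hs).1
  have hT2 : ∑ s ∈ Ico s1 (d * n + 1), f s ≤
      f s1 + f (s1 + 1) + ∑ s ∈ Ico (s1 + 2) (d * n + 1 + 2), f s := by
    calc ∑ s ∈ Ico s1 (d * n + 1), f s ≤ ∑ s ∈ insert s1 (insert (s1 + 1)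
          (Ico (s1 + 2) (d * n + 1 + 2))), f s := by
          refine Finset.sum_le_sum_of_subset_of_nonneg ?_ (fun s _ _ => hf0 s)
          intro s hs
          rw [mem_Ico] at hs
          rw [mem_insert, mem_insert, mem_Ico]
          omega
      _ = _ := by
          rw [Finset.sum_insert (by rw [mem_insert, mem_Ico]; omega),
            Finset.sum_insert (by rw [mem_Ico]; omega)]
          exact (add_assoc _ _ _).symm
  have hT3 : ∑ s ∈ range (d * n + 1), f s ≤
      ∑ s ∈ range (s1 + 2), f s + ∑ s ∈ Ico (s1 + 2) (d * n + 1 + 2), f s := by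
    calc ∑ s ∈ range (d * n + 1), f s ≤
          ∑ s ∈ (range (s1 + 2)) ∪ (Ico (s1 + 2) (d * n + 1 + 2)), f s := by
          refine Finset.sum_le_sum_of_subset_of_nonneg ?_ (fun s _ _ => hf0 s)
          intro s hs
          rw [mem_range] at hs
          rw [mem_union, mem_range, mem_Ico]
          omega
      _ = _ := by
          rw [Finset.sum_union]
          rw [Finset.disjoint_left]
          intro s hs hs'
          rw [mem_range] at hs
          rw [mem_Ico] at hs'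
          omega
  have hAle : ∀ t : Finset ℕ, ∑ s ∈ t, ((As d n s).card : ℝ) ≤ ((MD d n).card : ℝ) := by
    intro t
    have hsub : ∀ s, ((As d n s).card : ℝ) = ∑ G ∈ MD d n, (if dfc d G = s then (1 : ℝ) else 0) := by
      intro s
      unfold As
      rw [Finset.card_filter]
      push_cast
      rfl
    rw [Finset.sum_congr rfl fun s _ => hsub s, Finset.sum_comm]
    calc ∑ G ∈ MD d n, ∑ s ∈ t, (if dfc d G = s then (1 : ℝ) else 0) ≤ ∑ _G ∈ MD d n, (1 : ℝ) := by
          refine Finset.sum_le_sum fun G _ => ?_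
          rw [Finset.sum_ite_eq]
          split_ifs <;> norm_num
      _ = _ := by simp
  have hle : ∀ s, s ≤ s1 + 1 → f s ≤ (2 + (s1 : ℝ)) ^ d * ((As d n s).card : ℝ) := by
    intro s hs
    refine mul_le_mul_of_nonneg_right ?_ (Nat.cast_nonneg _)
    refine pow_le_pow_left₀ (by positivity) ?_ d
    have : (s : ℝ) ≤ s1 + 1 := by exact_mod_cast hs
    linarith
  have hR : ∑ s ∈ range (s1 + 2), f s ≤ (2 + (s1 : ℝ)) ^ d * ((MD d n).card : ℝ) := by
    calc ∑ s ∈ range (s1 + 2), f s ≤ ∑ s ∈ range (s1 + 2), (2 + (s1 : ℝ)) ^ d * ((As d n s).card : ℝ) :=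
          Finset.sum_le_sum fun s hs => hle s (by rw [mem_range] at hs; omega)
      _ = (2 + (s1 : ℝ)) ^ d * ∑ s ∈ range (s1 + 2), ((As d n s).card : ℝ) := by
          rw [Finset.mul_sum]
      _ ≤ _ := mul_le_mul_of_nonneg_left (hAle _) (by positivity)
  have hP : f s1 + f (s1 + 1) ≤ (2 + (s1 : ℝ)) ^ d * ((MD d n).card : ℝ) := by
    have h3 := hAle {s1, s1 + 1}
    rw [Finset.sum_pair (by omega)] at h3
    have h4 := hle s1 (by omega)
    have h5 := hle (s1 + 1) le_rfl
    have h6 : (0 : ℝ) ≤ (2 + (s1 : ℝ)) ^ d := by positivity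
    calc f s1 + f (s1 + 1) ≤ (2 + (s1 : ℝ)) ^ d *
          (((As d n s1).card : ℝ) + ((As d n (s1 + 1)).card : ℝ)) := by
          rw [mul_add]
          exact add_le_add h4 h5
      _ ≤ _ := mul_le_mul_of_nonneg_left h3 h6
  linarith

end Pool.Agent.Helper22.T7
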