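import Pool.Agent.Helper22.T7.Fib

set_option autoImplicit false

/-!
MP_2f9829_co: almost all graphs with maximum degree `d` are `d`-edge-choosable. Part 5: the second
moment of the weights of the sets of uncovered half-edges.
-/

open Finset

namespace Pool.Agent.Helper22.T7

open Pool.Agent.Helper15.T6

variable {n d : ℕ}

open Classical in
/-- number of half-edges of `U` at `v` -/
noncomputable def del (U : Finset (HE n d)) (v : Fin n) : ℕ := (univ.filter (fun a : Fin d => (v, a) ∈ U)).card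

/-- the weight of the set `U` of uncovered half-edges -/
noncomputable def wt (U : Finset (HE n d)) : ℕ := ∏ v, (del U v).factorial

theorem wt_pos (U : Finset (HE n d)) : 0 < wt U := Finset.prod_pos fun v _ => Nat.factorial_pos _

theorem del_insert_self {U : Finset (HE n d)} {v : Fin n} {a : Fin d} (h : (v, a) ∉ U) :
    del (insert (v, a) U) v = del U v + 1 := by
  classical
  unfold del
  have h1 : univ.filter (fun b : Fin d => (v, b) ∈ insert (v, a) U) =
      insert a (univ.filter (fun b : Fin d => (v, b) ∈ U)) := by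
    ext b
    simp only [mem_filter, mem_univ, true_and, mem_insert, Prod.mk.injEq]
  rw [h1, Finset.card_insert_of_notMem]
  simpa using h

theorem del_insert_ne {U : Finset (HE n d)} {v w : Fin n} {a : Fin d} (h : w ≠ v) :
    del (insert (v, a) U) w = del U w := by
  classical
  unfold del
  congr 1
  ext b
  simp only [mem_filter, mem_univ, true_and, mem_insert, Prod.mk.injEq]
  tauto

theorem wt_insert {U : Finset (HE n d)} {v : Fin n} {a : Fin d} (h : (v, a) ∉ U) :
    wt (insert (v, a) U) = wt U * (del U v + 1) := by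
  classical
  unfold wt
  rw [← Finset.mul_prod_erase univ _ (mem_univ v), ← Finset.mul_prod_erase univ (fun v =>
    (del U v).factorial) (mem_univ v), del_insert_self h, Nat.factorial_succ]
  rw [Finset.prod_congr rfl (fun w hw => by rw [del_insert_ne (mem_erase.1 hw).1])]
  ring

theorem del_lt {U : Finset (HE n d)} {v : Fin n} {a : Fin d} (h : (v, a) ∉ U) : del U v + 1 ≤ d := by
  classical
  have h1 : del U v < (univ : Finset (Fin d)).card := by
    unfold del
    apply Finset.card_lt_card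
    rw [Finset.ssubset_univ_iff]
    intro h2
    have h3 : a ∈ univ.filter (fun b : Fin d => (v, b) ∈ U) := by
      rw [h2]
      exact mem_univ _
    exact h (mem_filter.1 h3).2
  rw [Finset.card_univ, Fintype.card_fin] at h1
  omega

/-- number of half-edges at vertices with an element of `U` -/
theorem card_touch (U : Finset (HE n d)) [DecidablePred (fun h : HE n d => 1 ≤ del U h.1)] :
    (univ.filter (fun h : HE n d => 1 ≤ del U h.1)).card ≤ d * U.card := by
  classical
  have h1 : univ.filter (fun h : HE n d => 1 ≤ del U h.1) ⊆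
      (U.image Prod.fst) ×ˢ (univ : Finset (Fin d)) := by
    rintro ⟨v, a⟩ h
    rw [mem_filter] at h
    rw [mem_product]
    refine ⟨?_, mem_univ _⟩
    have h2 : 0 < del U v := h.2
    unfold del at h2
    rw [Finset.card_pos] at h2
    obtain ⟨b, hb⟩ := h2
    rw [mem_filter] at hb
    exact mem_image.2 ⟨(v, b), hb.2, rfl⟩
  refine (Finset.card_le_card h1).trans ?_
  rw [card_product, Finset.card_univ, Fintype.card_fin, mul_comm]
  exact Nat.mul_le_mul_left _ Finset.card_image_le

/-- the sum of the squares of the weights -/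
noncomputable def Sw (n d j : ℕ) : ℝ := ∑ U ∈ powersetCard j (univ : Finset (HE n d)), (wt U : ℝ) ^ 2

theorem insert_sum (U : Finset (HE n d)) :
    ∑ h ∈ Uᶜ, ((wt (insert h U) : ℕ) : ℝ) ^ 2 ≤
      (wt U : ℝ) ^ 2 * (((n * d : ℕ) : ℝ) - U.card + d ^ 3 * U.card) := by
  classical
  have h1 : ∀ h ∈ Uᶜ, ((wt (insert h U) : ℕ) : ℝ) ^ 2 ≤
      (wt U : ℝ) ^ 2 * (1 + (d : ℝ) ^ 2 * (if 1 ≤ del U h.1 then 1 else 0)) := by
    rintro ⟨v, a⟩ h
    rw [mem_compl] at h
    rw [wt_insert h]
    push_cast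
    rw [mul_pow]
    refine mul_le_mul_of_nonneg_left ?_ (by positivity)
    split_ifs with h2
    · have h3 := del_lt h
      have h4 : ((del U v : ℝ) + 1) ≤ d := by exact_mod_cast h3
      have h5 : ((del U v : ℝ) + 1) ^ 2 ≤ (d : ℝ) ^ 2 := pow_le_pow_left₀ (by positivity) h4 2
      linarith
    · have h3 : del U v = 0 := by omega
      rw [h3]
      norm_num
  refine (Finset.sum_le_sum h1).trans ?_
  rw [← Finset.mul_sum]
  refine mul_le_mul_of_nonneg_left ?_ (by positivity)
  rw [Finset.sum_add_distrib, ← Finset.mul_sum]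
  have h2 : ∑ _h ∈ Uᶜ, (1 : ℝ) = ((n * d : ℕ) : ℝ) - U.card := by
    rw [Finset.sum_const, nsmul_eq_mul, mul_one, Finset.card_compl, Fintype.card_prod,
      Fintype.card_fin, Fintype.card_fin]
    rw [Nat.cast_sub]
    have := Finset.card_le_univ U
    rwa [Fintype.card_prod, Fintype.card_fin, Fintype.card_fin] at this
  rw [h2]
  have h3 : ∑ h ∈ Uᶜ, (if 1 ≤ del U h.1 then (1 : ℝ) else 0) ≤ d * U.card := by
    calc ∑ h ∈ Uᶜ, (if 1 ≤ del U h.1 then (1 : ℝ) else 0)
        ≤ ∑ h : HE n d, (if 1 ≤ del U h.1 then (1 : ℝ) else 0) := by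
          refine Finset.sum_le_sum_of_subset_of_nonneg (Finset.subset_univ _) ?_
          intro h _ _
          split_ifs <;> norm_num
      _ = ((univ.filter (fun h : HE n d => 1 ≤ del U h.1)).card : ℝ) := by
          rw [Finset.card_filter]
          push_cast
          rfl
      _ ≤ _ := by exact_mod_cast card_touch U
  have h4 : (d : ℝ) ^ 2 * ∑ h ∈ Uᶜ, (if 1 ≤ del U h.1 then (1 : ℝ) else 0) ≤
      (d : ℝ) ^ 2 * (d * U.card) := mul_le_mul_of_nonneg_left h3 (by positivity)
  have h5 : (d : ℝ) ^ 2 * (d * U.card) = (d : ℝ) ^ 3 * U.card := by ring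
  linarith

theorem Sw_step (n d j : ℕ) :
    ((j : ℝ) + 1) * Sw n d (j + 1) ≤ (((n * d : ℕ) : ℝ) - j + d ^ 3 * j) * Sw n d j := by
  classical
  have h1 : ((j : ℝ) + 1) * Sw n d (j + 1) =
      ∑ U ∈ powersetCard (j + 1) (univ : Finset (HE n d)), ∑ _h ∈ U, (wt U : ℝ) ^ 2 := by
    unfold Sw
    rw [Finset.mul_sum]
    refine Finset.sum_congr rfl fun U hU => ?_
    rw [Finset.sum_const, (mem_powersetCard.1 hU).2, nsmul_eq_mul]
    push_cast
    rfl
  have h2 : ∑ U ∈ powersetCard (j + 1) (univ : Finset (HE n d)), ∑ _h ∈ U, (wt U : ℝ) ^ 2 =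
      ∑ U ∈ powersetCard j (univ : Finset (HE n d)), ∑ h ∈ Uᶜ, ((wt (insert h U) : ℕ) : ℝ) ^ 2 := by
    rw [Finset.sum_sigma', Finset.sum_sigma']
    refine Finset.sum_bij' (fun x _ => ⟨x.1.erase x.2, x.2⟩) (fun x _ => ⟨insert x.2 x.1, x.2⟩)
      ?_ ?_ ?_ ?_ ?_
    · rintro ⟨U, h⟩ hx
      simp only [mem_sigma, mem_powersetCard_univ] at hx ⊢
      refine ⟨?_, ?_⟩
      · rw [Finset.card_erase_of_mem hx.2, hx.1]
        rfl
      · rw [mem_compl]
        exact Finset.notMem_erase _ _
    · rintro ⟨U, h⟩ hx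
      simp only [mem_sigma, mem_powersetCard_univ, mem_compl] at hx ⊢
      refine ⟨?_, Finset.mem_insert_self _ _⟩
      rw [Finset.card_insert_of_notMem hx.2, hx.1]
    · rintro ⟨U, h⟩ hx
      simp only [mem_sigma, mem_powersetCard_univ] at hx
      dsimp only
      rw [Finset.insert_erase hx.2]
    · rintro ⟨U, h⟩ hx
      simp only [mem_sigma, mem_powersetCard_univ, mem_compl] at hx
      dsimp only
      rw [Finset.erase_insert hx.2]
    · rintro ⟨U, h⟩ hx
      simp only [mem_sigma, mem_powersetCard_univ] at hx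
      dsimp only
      rw [Finset.insert_erase hx.2]
  rw [h1, h2]
  unfold Sw
  rw [Finset.mul_sum]
  refine Finset.sum_le_sum fun U hU => ?_
  have h3 := insert_sum U
  rw [(mem_powersetCard.1 hU).2] at h3
  rw [mul_comm]
  exact h3

theorem Sw_le (n d j : ℕ) (hj : 2 * j ≤ n * d + 1) :
    Sw n d j ≤ Real.exp ((d : ℝ) ^ 3 * (j : ℝ) ^ 2 / ((n * d : ℕ) : ℝ)) *
      (((n * d).choose j : ℕ) : ℝ) := by
  classical
  induction j with
  | zero =>
    have : Sw n d 0 = 1 := by
      unfold Sw
      rw [Finset.powersetCard_zero, Finset.sum_singleton]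
      have h1 : wt (∅ : Finset (HE n d)) = 1 := by
        unfold wt
        refine Finset.prod_eq_one fun v _ => ?_
        unfold del
        simp
      rw [h1]
      norm_num
    rw [this]
    simp
  | succ j ih =>
    have ih' := ih (by omega)
    have hstep := Sw_step n d j
    set D : ℕ := n * d with hD
    have hjD : 2 * j + 1 ≤ D := by omega
    have hDpos : (0 : ℝ) < D := by
      have : 0 < D := by omega
      exact_mod_cast this
    have hjr : (2 : ℝ) * j ≤ D := by
      have : 2 * j ≤ D := by omega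
      exact_mod_cast this
    have hDj : (0 : ℝ) < (D : ℝ) - j := by
      have : (j : ℝ) < D := by
        have : j < D := by omega
        exact_mod_cast this
      linarith
    have hch : (((D.choose (j + 1) : ℕ) : ℝ)) * ((j : ℝ) + 1) = ((D.choose j : ℕ) : ℝ) * ((D : ℝ) - j) := by
      have h1 := Nat.choose_succ_right_eq D j
      have h2 : ((D - j : ℕ) : ℝ) = (D : ℝ) - j := by
        rw [Nat.cast_sub (by omega)]
      rw [← h2]
      exact_mod_cast h1
    have hfac : (D : ℝ) - j + (d : ℝ) ^ 3 * j ≤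
        ((D : ℝ) - j) * Real.exp (2 * (d : ℝ) ^ 3 * j / D) := by
      have h1 : 1 + 2 * (d : ℝ) ^ 3 * j / D ≤ Real.exp (2 * (d : ℝ) ^ 3 * j / D) := by
        have := Real.add_one_le_exp (2 * (d : ℝ) ^ 3 * j / D)
        linarith
      have h2 : ((D : ℝ) - j) * (1 + 2 * (d : ℝ) ^ 3 * j / D) ≤
          ((D : ℝ) - j) * Real.exp (2 * (d : ℝ) ^ 3 * j / D) :=
        mul_le_mul_of_nonneg_left h1 hDj.le
      refine le_trans ?_ h2
      rw [mul_add, mul_one]
      have h3 : (d : ℝ) ^ 3 * j ≤ ((D : ℝ) - j) * (2 * (d : ℝ) ^ 3 * j / D) := by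
        rw [mul_div_assoc', le_div_iff₀ hDpos]
        have h4 : (0 : ℝ) ≤ (d : ℝ) ^ 3 * j := by positivity
        nlinarith
      linarith
    have hexp : Real.exp (2 * (d : ℝ) ^ 3 * j / D) * Real.exp ((d : ℝ) ^ 3 * (j : ℝ) ^ 2 / D) ≤
        Real.exp ((d : ℝ) ^ 3 * ((j + 1 : ℕ) : ℝ) ^ 2 / D) := by
      rw [← Real.exp_add]
      apply Real.exp_le_exp.2
      rw [← add_div]
      apply div_le_div_of_nonneg_right _ hDpos.le
      push_cast
      have : (0 : ℝ) ≤ (d : ℝ) ^ 3 := by positivity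
      nlinarith
    have hj1 : (0 : ℝ) < (j : ℝ) + 1 := by positivity
    have hS0 : 0 ≤ Sw n d j := by
      unfold Sw
      positivity
    have hfin : ((j : ℝ) + 1) * Sw n d (j + 1) ≤ ((j : ℝ) + 1) *
        (Real.exp ((d : ℝ) ^ 3 * ((j + 1 : ℕ) : ℝ) ^ 2 / D) * ((D.choose (j + 1) : ℕ) : ℝ)) := by
      calc ((j : ℝ) + 1) * Sw n d (j + 1) ≤ ((D : ℝ) - j + (d : ℝ) ^ 3 * j) * Sw n d j := hstep
        _ ≤ (((D : ℝ) - j) * Real.exp (2 * (d : ℝ) ^ 3 * j / D)) *
            (Real.exp ((d : ℝ) ^ 3 * (j : ℝ) ^ 2 / D) * ((D.choose j : ℕ) : ℝ)) :=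
            mul_le_mul hfac ih' hS0 (by positivity)
        _ = (Real.exp (2 * (d : ℝ) ^ 3 * j / D) * Real.exp ((d : ℝ) ^ 3 * (j : ℝ) ^ 2 / D)) *
            (((D.choose j : ℕ) : ℝ) * ((D : ℝ) - j)) := by ring
        _ ≤ Real.exp ((d : ℝ) ^ 3 * ((j + 1 : ℕ) : ℝ) ^ 2 / D) *
            (((D.choose j : ℕ) : ℝ) * ((D : ℝ) - j)) := by
            apply mul_le_mul_of_nonneg_right hexp
            positivity
        _ = _ := by
            rw [← hch]
            ring
    exact le_of_mul_le_mul_left hfin hj1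

end Pool.Agent.Helper22.T7
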